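import Pool.Agent.H89.FV.Eves

/-!
# No infinite sequence of Eves in the regime with dust

Let `Λ` be a finite measure on `[0,1]` without mass at `0`, with `∫ u⁻¹ Λ(du) < ∞` and
`∫ u⁻² Λ(du) = ∞` (no condition on `∫ u log u ν(du)`). The `Λ` Fleming-Viot process in its
lookdown representation does not admit an infinite sequence of Eves.
-/

namespace Pool.Agent.Results.MP_dd3681_pr.NoEves

open MeasureTheory Pool.Agent.H89.FV

/-- **Answer to Q2.** In the whole intensive regime with dust, the Fleming-Viot process does not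
admit an infinite sequence of Eves. -/
theorem result (L : Measure ℝ) (hL : DustRegime L)
    {Ω : Type} [MeasurableSpace Ω] (P : Measure Ω) [IsProbabilityMeasure P]
    (A : Ω → Set Atom) (U : Ω → ℕ → ℝ) (ρ : ℝ → Ω → Measure ℝ)
    (hN : Noise (nuOf L) P A U) (hρ : IsFlemingViot P A U ρ) :
    ¬ AdmitsEves P ρ :=
  noEves L hL P A U ρ hN hρ

end Pool.Agent.Results.MP_dd3681_pr.NoEves
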